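import Mathlib
import Pool.Agent.K7.H74.AF.Stm
import Pool.Agent.K7.H74.WS.SlA

/-!
# Project AF, job V2: bounds for one block

Author: helper15.
-/

set_option autoImplicit false

namespace Pool.Agent.K7.H15.AF
open Finset MeasureTheory Complex

open Pool.Agent.K7.H74.AF (blk lo SB MB EB StV2)

lemma blk_succ (a : ℕ) : blk (a + 1) = Ico (3 ^ a) (3 * 3 ^ a) := by
  unfold blk lo
  rw [if_neg (Nat.succ_ne_zero a), Nat.add_sub_cancel, pow_succ, mul_comm (3 ^ a) 3]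

lemma SB_succ (k a : ℕ) (α ξ : ℝ) : SB k (a + 1) α ξ = Pool.Agent.K7.H74.WS.S k (3 ^ a) α ξ := by
  unfold SB Pool.Agent.K7.H74.WS.S
  rw [blk_succ]
  rfl

lemma MB_succ (k a : ℕ) (α : ℝ) : MB k (a + 1) α = Pool.Agent.K7.H74.WS.M k (3 ^ a) α := by
  unfold MB Pool.Agent.K7.H74.WS.M
  have h1 : ((lo (a + 1) : ℕ) : ℝ) = ((3 ^ a : ℕ) : ℝ) := by
    unfold lo
    rw [if_neg (Nat.succ_ne_zero a), Nat.add_sub_cancel]
  have h2 : (3 : ℝ) ^ (a + 1) = ((3 * 3 ^ a : ℕ) : ℝ) := by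
    push_cast
    ring
  rw [h1, h2]
  rfl

lemma EB_succ (k a : ℕ) (α : ℝ) :
    EB k (a + 1) α = ∫ ξ in (0 : ℝ)..1, ‖Pool.Agent.K7.H74.WS.S k (3 ^ a) α ξ‖ ^ 2 := by
  unfold EB
  simp_rw [SB_succ]

lemma EB_zero (k : ℕ) (α : ℝ) : EB k 0 α = 1 := by
  unfold EB
  have h : ∀ ξ : ℝ, ‖SB k 0 α ξ‖ ^ 2 = 1 := by
    intro ξ
    have h1 : blk 0 = {0} := by
      unfold blk lo
      simp
    unfold SB
    rw [h1, sum_singleton]
    have : ‖Pool.Agent.K7.H74.AF.e (α * (((0 : ℕ) : ℝ) + ξ) ^ k)‖ = 1 :=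
      Pool.Agent.K7.H74.WS.norm_e _
    rw [this]
    norm_num
  simp_rw [h]
  simp

lemma MB_zero (k : ℕ) (α : ℝ) : ‖MB k 0 α‖ ^ 2 ≤ 1 := by
  unfold MB
  have h1 : ((lo 0 : ℕ) : ℝ) = 0 := by
    unfold lo
    simp
  rw [h1, pow_zero]
  have h := intervalIntegral.norm_integral_le_of_norm_le_const (a := 0) (b := 1) (C := (1 : ℝ))
    (f := fun u => Pool.Agent.K7.H74.AF.e (α * u ^ k)) (fun u _ => (Pool.Agent.K7.H74.WS.norm_e _).le)
  have h2 : ‖∫ u in (0 : ℝ)..1, Pool.Agent.K7.H74.AF.e (α * u ^ k)‖ ≤ 1 := by simpa using h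
  calc _ ≤ (1 : ℝ) ^ 2 := pow_le_pow_left₀ (norm_nonneg _) h2 2
    _ = 1 := one_pow 2

theorem v2 : StV2 := by
  intro k hk
  obtain ⟨m, rfl⟩ : ∃ m, k = m + 2 := ⟨k - 2, by omega⟩
  have hCK := Pool.Agent.K7.H74.WS.CK_pos m
  set c : ℝ := Pool.Agent.K7.H74.WS.CK m + 1 with hc
  have hc1 : 1 ≤ c := by rw [hc]; linarith
  refine ⟨6 * c, by linarith, ?_⟩
  intro a J α haJ hα
  have hα0 : 0 < |α| := abs_pos.2 hα
  set Z : ℝ := (3 : ℝ) ^ J with hZ
  have hZ1 : 1 ≤ Z := one_le_pow₀ (by norm_num)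
  have hZ0 : 0 < Z := by linarith
  have hJ0 : (0 : ℝ) ≤ J := Nat.cast_nonneg J
  set X : ℝ := Z ^ (((m + 2 : ℕ) : ℝ) / 2 + 1) * |α| ^ (1 / 2 : ℝ) with hX
  have hX0 : 0 ≤ X := by positivity
  set u : ℝ := |α| ^ (-(1 : ℝ) / ((m + 2 : ℕ) : ℝ)) with hu
  have hu0 : 0 < u := Real.rpow_pos_of_pos hα0 _
  have hk0 : ((m + 2 : ℕ) : ℝ) ≠ 0 := by positivity
  have hu1 : |α| * u ^ (m + 2) = 1 := by
    rw [hu, ← Real.rpow_natCast, ← Real.rpow_mul hα0.le]
    have : -(1 : ℝ) / ((m + 2 : ℕ) : ℝ) * ((m + 2 : ℕ) : ℝ) = -1 := by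
      field_simp
    rw [this, Real.rpow_neg_one, mul_inv_cancel₀ hα0.ne']
  have hu2 : |α| ^ (-(2 : ℝ) / ((m + 2 : ℕ) : ℝ)) = u ^ 2 := by
    rw [hu, ← Real.rpow_natCast, ← Real.rpow_mul hα0.le]
    congr 1
    push_cast
    ring
  rw [hu2]
  have hu20 : 0 ≤ u ^ 2 := by positivity
  have hone : (1 : ℝ) ≤ 6 * c * (1 + J) := by nlinarith
  rcases Nat.eq_zero_or_pos a with rfl | ha
  · rw [EB_zero]
    have hM := MB_zero (m + 2) α
    have hM0 : 0 ≤ ‖MB (m + 2) 0 α‖ ^ 2 := by positivity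
    refine ⟨hM, one_le_pow₀ hZ1, ?_, ?_⟩
    · nlinarith
    · nlinarith
  obtain ⟨a', rfl⟩ : ∃ a', a = a' + 1 := ⟨a - 1, by omega⟩
  have haJ' : a' < J := haJ
  set P : ℕ := 3 ^ a' with hP
  have hP1 : 1 ≤ P := Nat.one_le_pow _ _ (by norm_num)
  have hP0 : (0 : ℝ) < P := by exact_mod_cast hP1
  have hPZ : 3 * (P : ℝ) ≤ Z := by
    rw [hP, hZ]
    push_cast
    calc 3 * (3 : ℝ) ^ a' = 3 ^ (a' + 1) := by ring
      _ ≤ 3 ^ J := pow_le_pow_right₀ (by norm_num) haJ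
  have hlog := Pool.Agent.K7.H74.WS.log_block haJ'
  have hlog' : 1 + Real.log (2 * (P : ℝ)) ≤ 2 * J + 2 := by
    rw [hP]
    exact hlog
  have hvar := Pool.Agent.K7.H74.WS.varsq (Pool.Agent.K7.H74.WS.S_cont2 (m + 2) P α)
    (Pool.Agent.K7.H74.WS.int_S (m + 2) P α)
  have hDS0 := Pool.Agent.K7.H74.WS.DS_nonneg (m + 2) P α
  have hDS1 := Pool.Agent.K7.H74.WS.DS_triv (m := m) hP1 α
  have hDS2 := Pool.Agent.K7.H74.WS.DS_sq (m := m) hP1 hα
  have hsec := Pool.Agent.K7.H74.WS.second (m := m) hP1 hα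
  rw [EB_succ, MB_succ]
  have hDSeq : Pool.Agent.K7.H74.WS.DS (m + 2) P α =
      (∫ ξ in (0 : ℝ)..1, ‖Pool.Agent.K7.H74.WS.S (m + 2) P α ξ‖ ^ 2) -
        ‖Pool.Agent.K7.H74.WS.M (m + 2) P α‖ ^ 2 := hvar
  set E : ℝ := ∫ ξ in (0 : ℝ)..1, ‖Pool.Agent.K7.H74.WS.S (m + 2) P α ξ‖ ^ 2 with hE
  have hE4 : E ≤ (2 * P) ^ 2 := by
    have h : E ≤ ∫ ξ in (0 : ℝ)..1, (2 * (P : ℝ)) ^ 2 := by
      rw [hE]
      apply intervalIntegral.integral_mono_on zero_le_one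
      · exact ((Pool.Agent.K7.H74.WS.S_cont2 _ _ α).norm.pow 2).intervalIntegrable _ _
      · exact intervalIntegrable_const
      · intro ξ _
        exact pow_le_pow_left₀ (norm_nonneg _) (Pool.Agent.K7.H74.WS.S_le _ _ _ _) 2
    simpa using h
  refine ⟨?_, ?_, ?_, ?_⟩
  · linarith
  · refine hE4.trans ?_
    exact pow_le_pow_left₀ (by positivity) (by linarith) 2
  · rcases le_or_gt (P : ℝ) u with hPu | hPu
    · have h1 : E ≤ 4 * u ^ 2 := by
        refine hE4.trans ?_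
        nlinarith
      nlinarith [mul_nonneg hJ0 hu20, mul_nonneg (by linarith : (0 : ℝ) ≤ c - 1) hu20,
        mul_nonneg (mul_nonneg (by linarith : (0 : ℝ) ≤ c) (by linarith : (0 : ℝ) ≤ 1 + (J : ℝ))) hZ0.le,
        mul_nonneg (mul_nonneg (by linarith : (0 : ℝ) ≤ c - 1) (by linarith : (0 : ℝ) ≤ 1 + (J : ℝ))) hu20]
    · have h2 : (1 + Real.log (2 * P)) / (|α| * (P : ℝ) ^ m) ≤ (2 * J + 2) * u ^ 2 := by
        rw [div_le_iff₀ (by positivity)]
        have h3 : 1 ≤ u ^ 2 * (|α| * (P : ℝ) ^ m) := by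
          calc (1 : ℝ) = |α| * u ^ (m + 2) := hu1.symm
            _ = u ^ 2 * (|α| * u ^ m) := by ring
            _ ≤ u ^ 2 * (|α| * (P : ℝ) ^ m) := by gcongr
        calc 1 + Real.log (2 * P) ≤ 2 * J + 2 := hlog'
          _ = (2 * J + 2) * 1 := (mul_one _).symm
          _ ≤ (2 * J + 2) * (u ^ 2 * (|α| * (P : ℝ) ^ m)) := mul_le_mul_of_nonneg_left h3 (by linarith)
          _ = _ := by ring
      have h4 : E ≤ Z + 2 * ((1 + J) * u ^ 2) := by
        calc E ≤ _ := hsec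
          _ ≤ 2 * P + (2 * J + 2) * u ^ 2 := by linarith
          _ ≤ _ := by nlinarith
      have h5 : 0 ≤ (1 + (J : ℝ)) * u ^ 2 := by positivity
      have h6 : (1 + (J : ℝ)) * u ^ 2 ≤ c * ((1 + J) * u ^ 2) := le_mul_of_one_le_left h5 hc1
      have h7 : Z ≤ 6 * c * (1 + J) * Z := le_mul_of_one_le_left hZ0.le hone
      have e1 : 6 * c * (1 + (J : ℝ)) * (Z + u ^ 2) = 6 * c * (1 + J) * Z + 6 * (c * ((1 + J) * u ^ 2)) := by ring
      rw [e1]
      linarith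
  · rw [← hDSeq]
    set D := Pool.Agent.K7.H74.WS.DS (m + 2) P α with hD
    set t : ℝ := |α| * (P : ℝ) ^ (m + 2) with ht
    have ht0 : 0 < t := by positivity
    set s : ℝ := Real.sqrt t with hs
    have hs0 : 0 < s := Real.sqrt_pos.2 ht0
    have hst : s ^ 2 = t := Real.sq_sqrt ht0.le
    have hPs : P * s ≤ X := by
      have h1 : s ≤ Real.sqrt (|α| * Z ^ (m + 2)) := by
        apply Real.sqrt_le_sqrt
        rw [ht]
        have : (P : ℝ) ^ (m + 2) ≤ Z ^ (m + 2) := pow_le_pow_left₀ hP0.le (by linarith) _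
        exact mul_le_mul_of_nonneg_left this hα0.le
      have h2 : Real.sqrt (|α| * Z ^ (m + 2)) = |α| ^ (1 / 2 : ℝ) * Z ^ (((m + 2 : ℕ) : ℝ) / 2) := by
        rw [Real.sqrt_eq_rpow, Real.mul_rpow hα0.le (by positivity), ← Real.rpow_natCast Z (m + 2),
          ← Real.rpow_mul hZ0.le]
        congr 2
        ring
      have h3 : X = Z * (|α| ^ (1 / 2 : ℝ) * Z ^ (((m + 2 : ℕ) : ℝ) / 2)) := by
        rw [hX, Real.rpow_add hZ0, Real.rpow_one]
        ring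
      rw [h3, ← h2]
      exact mul_le_mul (by linarith) h1 hs0.le hZ0.le
    have hmain : D ≤ Z + 2 * (c * ((1 + J) * (P * s))) := by
      have hPs0 : 0 ≤ P * s := by positivity
      rcases le_or_gt (P : ℝ) (c * s ^ 3) with h | h
      · have h1 : (1 + Real.log (2 * P)) / (|α| * (P : ℝ) ^ m) ≤ 2 * (c * ((1 + J) * (P * s))) := by
          rw [div_le_iff₀ (by positivity)]
          have h2 : (P : ℝ) ^ 2 * (|α| * (P : ℝ) ^ m) = s ^ 2 := by
            rw [hst, ht]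
            ring
          have h3 : 1 ≤ c * (P * s) * (|α| * (P : ℝ) ^ m) := by
            have h4 : (P : ℝ) ^ 2 * 1 ≤ (P : ℝ) ^ 2 * (c * (P * s) * (|α| * (P : ℝ) ^ m)) := by
              calc (P : ℝ) ^ 2 * 1 = P * P := by ring
                _ ≤ P * (c * s ^ 3) := mul_le_mul_of_nonneg_left h hP0.le
                _ = c * (P * s) * s ^ 2 := by ring
                _ = c * (P * s) * ((P : ℝ) ^ 2 * (|α| * (P : ℝ) ^ m)) := by rw [h2]
                _ = _ := by ring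
            exact le_of_mul_le_mul_left h4 (by positivity)
          calc 1 + Real.log (2 * P) ≤ 2 * J + 2 := hlog'
            _ = (2 * (1 + J)) * 1 := by ring
            _ ≤ (2 * (1 + J)) * (c * (P * s) * (|α| * (P : ℝ) ^ m)) :=
                mul_le_mul_of_nonneg_left h3 (by linarith)
            _ = _ := by ring
        linarith
      · have h1 : D ≤ (c * t) ^ 2 := by
          refine hDS1.trans (pow_le_pow_left₀ (by positivity) ?_ 2)
          exact mul_le_mul_of_nonneg_right (by rw [hc]; linarith) ht0.le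
        have h2 : (c * t) ^ 2 ≤ c * (P * s) := by
          calc (c * t) ^ 2 = c * s * (c * s ^ 3) := by rw [← hst]; ring
            _ ≤ c * s * P := mul_le_mul_of_nonneg_left h.le (by positivity)
            _ = _ := by ring
        have h3 : c * (P * s) ≤ 2 * (c * ((1 + J) * (P * s))) := by
          have : P * s ≤ (1 + J) * (P * s) := le_mul_of_one_le_left hPs0 (by linarith)
          have h4 : c * (P * s) ≤ c * ((1 + J) * (P * s)) := mul_le_mul_of_nonneg_left this (by linarith)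
          have h5 : 0 ≤ c * ((1 + J) * (P * s)) := by positivity
          linarith
        linarith
    have h8 : c * ((1 + J) * (P * s)) ≤ c * ((1 + J) * X) := by
      apply mul_le_mul_of_nonneg_left _ (by linarith)
      exact mul_le_mul_of_nonneg_left hPs (by linarith)
    have h9 : 0 ≤ c * ((1 + (J : ℝ)) * X) := by positivity
    have h7 : Z ≤ 6 * c * (1 + J) * Z := le_mul_of_one_le_left hZ0.le hone
    have e1 : 6 * c * (1 + (J : ℝ)) * (Z + X) = 6 * c * (1 + J) * Z + 6 * (c * ((1 + J) * X)) := by ring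
    rw [e1]
    linarith

end Pool.Agent.K7.H15.AF
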